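import Pool.Agent.Q186.FV.GT

/-!
MP_4dacf8_ag, Q1: Vojta's height inequality over function fields, for pairs over tori with a second
boundary divisor `Q = 0` at which only the contacts of order exactly one are counted, and for their
covers.

`F` is the function field of a smooth projective complex curve `B`. `IsOrbPairF F S₀ d a f e Q`
(`Pool/Agent/Q186/FV/Pair.lean`): `X` is an integral projective variety over `F` with generic point
`a` and function field `K`; the `f i` are forms over `F` of degree `e` such that the rational map
`(f 0 : … : f n)` on `X` is generically finite onto its image (any subvariety of projective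
`n`-space over `F`); `Q` is a polynomial over `F` with `Q (1, f 1 / f 0, …, f n / f 0) ≠ 0` on `X`;
the total space over `B - S₀` is of log general type for the boundary which consists of the prime
divisors (on all models) at which some `f i / f 0` is not a unit (the toric boundary) or at which the
function `Q (1, f 1 / f 0, …, f n / f 0)` vanishes to the first order. `IsCoverF F a b g e'`
(`Pool/Agent/Q271/RC/FDefs.lean`): `Y` is a projective variety over `F` with generic point `b` and
function field `K'`, and the forms `g 0, …, g N` over `F` define a generically finite dominant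
rational map from `Y` to `X`.

`OrbContactF F m Q v z`: at `z` two of the orders of `v 0, …, v n` differ by at least `m` (contact of
order at least `m` with the toric boundary), or they are all equal (no contact with the toric
boundary) and the order of `Q (1, v 1 / v 0, …, v n / v 0)` is not one (no contact of order one with
`Q = 0`). `OrbRamifiedF F S₁ m Q b h` (`Pool/Agent/Q186/FV/GT.lean`): this is so for the forms
`h i = f i (g)` and all points of `Y` over extensions `L` of `F`, at the places of `L` which are not
over the finite set `S₁`; for instance if the forms `h i` are `m`-th powers of forms on `Y` and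
`Q (1, h 1 / h 0, …)` is a square, up to factors in `F` which are units outside of `S₁`.

Theorem: there are `m` and a finite set `S₂` of points of `B` such that for all covers `Y` of `X`
there are a proper closed subset `G = 0` of `Y` and constants `A`, `C` such that for all finite
extensions `L` of `F` and all points `v` of `Y` over `L` outside `G = 0`:

(1) `h(v) ≤ A (2 g(L) - 2 + |T|) + C [L : F]` for all finite sets `T` of places of `L` which contain
the places at which the contact order of `g(v)` with the toric boundary is positive and less than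
`m`, and those at which this contact order is zero and `g(v)` meets `Q = 0` with contact exactly one;
so contacts of order at least `m` with the toric boundary and contacts of order at least two with
`Q = 0` need not be counted.

(2) If `Y` has orbifold contact outside of the fibres over a finite set `S₁`, then
`h(v) ≤ A (2 g(L) - 2) + C' [L : F]`, and the total space of `Y` over `B - S₁ - S₂` is of
logarithmic general type (`LogGeneralType`, boundary: the prime divisors over `S₁` and `S₂`).
-/

set_option autoImplicit false

namespace Pool.Agent.Results.MP_4dacf8_ag.BranchDivisorPairs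

open MvPolynomial FF Pool.Agent.W603.LV Pool.Agent.W603.PV Pool.Agent.Q271.RC Pool.Agent.Q72.NA
open Pool.Agent.Q186.FV
open Pool.Agent.W602.GT (LogGeneralType)

/-- the inequality (1), for the points outside `G = 0` -/
def Ineq (F : Type) [Field F] [Algebra ℂ F] {N' n : ℕ} {K' : Type} [Field K'] [Algebra F K']
    (m : ℕ) (Q : MvPolynomial (Fin (n + 1)) F) (b : Fin (N' + 1) → K')
    (h : Fin (n + 1) → MvPolynomial (Fin (N' + 1)) F) (G : MvPolynomial (Fin (N' + 1)) F)
    (A C : ℕ) : Prop :=
  ∀ (L : Type) [Field L] [Algebra ℂ L] [Algebra F L] [IsScalarTower ℂ F L] [Module.Finite F L]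
    (v : Fin (N' + 1) → L), IsPointF F b v → aeval v G ≠ 0 → ∀ T : Finset (Place ℂ L),
    (∀ z : Place ℂ L, z ∉ T → OrbContactF F m Q (fun i => aeval v (h i)) z) →
    pht ℂ v ≤ A * (canDeg ℂ L + T.card) + C * Module.finrank F L

/-- the inequality (2), with empty divisor, for the points outside `G = 0` -/
def Ineq0 (F : Type) [Field F] [Algebra ℂ F] {N' : ℕ} {K' : Type} [Field K'] [Algebra F K']
    (b : Fin (N' + 1) → K') (G : MvPolynomial (Fin (N' + 1)) F) (A C : ℕ) : Prop :=
  ∀ (L : Type) [Field L] [Algebra ℂ L] [Algebra F L] [IsScalarTower ℂ F L] [Module.Finite F L]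
    (v : Fin (N' + 1) → L), IsPointF F b v → aeval v G ≠ 0 →
    pht ℂ v ≤ A * canDeg ℂ L + C * Module.finrank F L

/-- See the explanation at the beginning of the file. -/
theorem result {N n d : ℕ} (F : Type) [Field F] [Algebra ℂ F] [IsFF ℂ F]
    (S₀ : Finset (Place ℂ F)) (K : Type) [Field K] [Algebra ℂ K] [Algebra F K]
    [IsScalarTower ℂ F K] (a : Fin (N + 1) → K)
    (f : Fin (n + 1) → MvPolynomial (Fin (N + 1)) F) (e : ℕ) (Q : MvPolynomial (Fin (n + 1)) F)
    (hX : IsOrbPairF F S₀ d a f e Q) :
    ∃ (m : ℕ) (S₂ : Finset (Place ℂ F)), ∀ (N' : ℕ) (K' : Type) [Field K'] [Algebra ℂ K']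
      [Algebra F K'] [IsScalarTower ℂ F K'] [Algebra K K'] [IsScalarTower F K K']
      (b : Fin (N' + 1) → K') (g : Fin (N + 1) → MvPolynomial (Fin (N' + 1)) F) (e' : ℕ),
      IsCoverF F a b g e' →
      ∃ (G : MvPolynomial (Fin (N' + 1)) F) (D A C : ℕ), G.IsHomogeneous D ∧ aeval b G ≠ 0 ∧
        Ineq F m Q b (fun i => bind₁ g (f i)) G A C ∧
        ∀ S₁ : Finset (Place ℂ F), OrbRamifiedF F S₁ m Q b (fun i => bind₁ g (f i)) →
          (∃ C' : ℕ, Ineq0 F b G A C') ∧
          LogGeneralType ℂ K' d fun P => (∃ q ∈ S₂, IsOver P q) ∨ ∃ q ∈ S₁, IsOver P q := by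
  obtain ⟨m1, hm1⟩ := coverQF F S₀ K a f e Q hX
  obtain ⟨m2, S₂, hm2⟩ := coverQF_gt F S₀ K a f e Q hX
  refine ⟨m1 + m2, S₂, fun N' K' _ _ _ _ _ _ b g e' hY => ?_⟩
  obtain ⟨G, D, A, C, hG, hGb, hmain⟩ := hm1 (m1 + m2) (by omega) N' K' b g e' hY
  refine ⟨G, D, A, C, hG, hGb, fun L _ _ _ _ _ v hv hGv T hT => ((hmain L v hv hGv).2 T hT),
    fun S₁ hram => ⟨?_, hm2 (m1 + m2) (by omega) N' K' b g e' hY S₁ hram⟩⟩
  obtain ⟨H, hH⟩ := card_over S₁
  refine ⟨A * H + C, fun L _ _ _ _ _ v hv hGv => ?_⟩
  obtain ⟨T, hT, hTz⟩ := hH L
  obtain ⟨h1, h2⟩ := hmain L v hv hGv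
  have h3 := h2 T fun z hz => hram L v hv h1 z (hTz z hz)
  refine h3.trans ?_
  have hA0 : (0 : ℤ) ≤ A := Int.natCast_nonneg _
  have h4 := mul_le_mul_of_nonneg_left hT hA0
  push_cast
  nlinarith

end Pool.Agent.Results.MP_4dacf8_ag.BranchDivisorPairs
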