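import Pool.Agent.Q33.FP.Thm

set_option autoImplicit false

/-!
# Vojta's height inequality over function fields for points with few terms, with uniform constants

Let `F` be the function field of a curve `B` over the algebraically closed field `k` of characteristic
zero. A point over a finite extension `L` of `F` is written as `x = u_1 v_1 + … + u_r v_r`, where the
`u_j` are nonzero elements of `L` and the `v_j` are vectors over `L`, `S` is a finite set of places of
`L` and the orders of the `u_j` at all places outside `S` are multiples of a number
`M ≥ (C(r + d - 1, d) - 1) ^ 2` (for instance the `u_j` are units outside `S`, or `M`-th powers of any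
elements of `L`). The height `ht k x` (relative to `L`) is minus the sum over the places of `L` of the
minimal orders of the coordinates, `vht k v` is the height of the point of projective space with all
the coordinates of `v_1, …, v_r`, `canDeg k L` is `2 g - 2` for the curve with the function field `L`.
The height of the problem, `χ(P)` and the counting function are obtained from `ht`, `canDeg` and the
number of elements of `S` by dividing by `[L : F]`.

For all `r` and `d` there is a constant `A` such that, for ALL function fields `F`, ALL `n` and all
closed subsets `X` of projective `n`-space over `F` given by (any number of) forms of degree at most `d`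
with coefficient vectors of height at most `h`:

(1) for all finite extensions `L` of `F` and all points `x` as above on `X`
  `ht x ≤ A (max (2 g(L) - 2 + |S|) 0 + ht v + [L : F] h)`,
or `x` is on a nonconstant rational curve `t ↦ ∑ t ^ (w_j) u_j v_j` in `X`, defined over `L`;

(2) if `X` is irreducible (given by a prime ideal) and not uniruled, then there is a proper closed
subset `X ∩ {G = 0}` of `X`, defined over `F`, such that the inequality holds for all these points
outside it.

(3), (4) the same for the closed subsets `U` of the affine `n`-space, with `M ≥ (C(r + d, d) - 1) ^ 2`,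
with the heights of the points `(1 : x)` and `(1 : v)`; the rational curves are replaced by images of the
punctured line `t ↦ ∑ t ^ (w_j) u_j v_j`, `t ≠ 0`, with integral exponents `w_j`, and `uniruled` by
`dominated by punctured lines`.

Method: the equations `f (∑ u_j v_j) = 0` are sums of few monomials in the `u_j` with coefficients of
small height. By the height inequality for generalised unit equations (with a bound which does not
depend on `M`) they split into equations between monomials whose quotients have small height. A
generic one-parameter group, orthogonal to all exponent vectors of the monomials of small height, gives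
a curve through the point which lies on `X`. If the curve is constant then the point is proportional to
a part of the sum in which all quotients of the `u_j` have small height.
-/

namespace Pool.Agent.Results.MP_4dacf8_ag.FewTermPoints

open FF MvPolynomial Pool.Agent.W603.LV Pool.Agent.Q33.FP
open Pool.Agent.H533R3.SL (Uniruled exists_hyper)
open Pool.Agent.Y215.AF (GmUniruled exists_hyperA)

variable (k : Type) {F : Type} [Field k] [Field F] [Algebra k F] {n : ℕ}

/-- The forms in `X` have degree at most `d`, their coefficient vectors have height at most `h`. -/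
def Forms (X : Set (MvPolynomial (Fin (n + 1)) F)) (d h : ℕ) : Prop :=
  ∀ f ∈ X, (∃ e, e ≤ d ∧ f.IsHomogeneous e) ∧ cht k F f ≤ h

/-- The polynomials in `U` have degree at most `d`, their coefficient vectors have height at most
`h`. -/
def Polynomials (U : Set (MvPolynomial (Fin n) F)) (d h : ℕ) : Prop :=
  ∀ f ∈ U, f.totalDegree ≤ d ∧ cht k F f ≤ h

/-- The height inequality with the constant `A` for the points `∑ u j v j` of the projective variety
`X` over all finite extensions `L` of `F`, except for the points with the property `E`. -/
def ProjInequality (X : Set (MvPolynomial (Fin (n + 1)) F)) (r d A h : ℕ)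
    (E : ∀ (L : Type) [Field L] [Algebra F L], (Fin r → Fin (n + 1) → L) → (Fin r → L) → Prop) :
    Prop :=
  ∀ (L : Type) [Field L] [Algebra k L] [Algebra F L] [IsScalarTower k F L]
    [FiniteDimensional F L] (S : Finset (Place k L)) (M : ℕ) (v : Fin r → Fin (n + 1) → L)
    (u : Fin r → L), 0 < M → ((r + d - 1).choose d - 1) ^ 2 ≤ M → Units S M u → pt v u ≠ 0 →
    (∀ f ∈ X, aeval (pt v u) f = 0) → E L v u ∨
      ht k (pt v u) ≤ A * (max (canDeg k L + S.card) 0 + vht k v + Module.finrank F L * h)

/-- The height inequality with the constant `A` for the points `∑ u j v j` of the affine variety `U`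
over all finite extensions `L` of `F`, except for the points with the property `E`. -/
def AffInequality (U : Set (MvPolynomial (Fin n) F)) (r d A h : ℕ)
    (E : ∀ (L : Type) [Field L] [Algebra F L], (Fin r → Fin n → L) → (Fin r → L) → Prop) :
    Prop :=
  ∀ (L : Type) [Field L] [Algebra k L] [Algebra F L] [IsScalarTower k F L]
    [FiniteDimensional F L] (S : Finset (Place k L)) (M : ℕ) (v : Fin r → Fin n → L)
    (u : Fin r → L), 0 < M → ((r + d).choose d - 1) ^ 2 ≤ M → Units S M u →
    (∀ f ∈ U, aeval (fun i => ∑ j, v j i * u j) f = 0) → E L v u ∨
      aht k (fun i => ∑ j, v j i * u j) ≤ A * (max (canDeg k L + S.card) 0 +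
        aht k (fun p : Fin r × Fin n => v p.1 p.2) + Module.finrank F L * h)

theorem result (r d : ℕ) (hd : 1 ≤ d) : ∃ A : ℕ, ∀ (k F : Type) [Field k] [IsAlgClosed k]
    [CharZero k] [Field F] [Algebra k F] [IsFF k F] (n h : ℕ),
    (∀ X : Set (MvPolynomial (Fin (n + 1)) F), Forms k X d h →
      -- (1)
      ProjInequality k X r d A h (fun _ _ _ v u => OnLine X v u) ∧
      -- (2)
      ((Ideal.span X).IsPrime → ¬ Uniruled (Ideal.span X) →
        ∃ G : MvPolynomial (Fin (n + 1)) F, (∃ e, G.IsHomogeneous e) ∧ G ∉ Ideal.span X ∧
          ProjInequality k X r d A h (fun _ _ _ v u => aeval (pt v u) G = 0))) ∧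
    (∀ U : Set (MvPolynomial (Fin n) F), Polynomials k U d h →
      -- (3)
      AffInequality k U r d A h (fun _ _ _ v u => OnGm U v u) ∧
      -- (4)
      ((Ideal.span U).IsPrime → ¬ GmUniruled (Ideal.span U) →
        ∃ G : MvPolynomial (Fin n) F, G ∉ Ideal.span U ∧
          AffInequality k U r d A h
            (fun _ _ _ v u => aeval (fun i => ∑ j, v j i * u j) G = 0))) := by
  obtain ⟨A1, hA1⟩ := proj_main r d
  obtain ⟨A2, hA2⟩ := aff_main r d
  refine ⟨max A1 A2, ?_⟩
  intro k F _ _ _ _ _ _ n h
  have hle1 : (A1 : ℤ) ≤ (max A1 A2 : ℕ) := by exact_mod_cast le_max_left _ _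
  have hle2 : (A2 : ℤ) ≤ (max A1 A2 : ℕ) := by exact_mod_cast le_max_right _ _
  have hF : CharZero F := charZero_of_injective_algebraMap (algebraMap k F).injective
  constructor
  · intro X hX
    have key : ∀ (L : Type) [Field L] [Algebra k L] [Algebra F L] [IsScalarTower k F L]
        [FiniteDimensional F L] (S : Finset (Place k L)) (M : ℕ) (v : Fin r → Fin (n + 1) → L)
        (u : Fin r → L), 0 < M → ((r + d - 1).choose d - 1) ^ 2 ≤ M → Units S M u → pt v u ≠ 0 →
        (∀ f ∈ X, aeval (pt v u) f = 0) → (OnLine X v u ∧ ∀ G : MvPolynomial (Fin (n + 1)) F,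
          (∀ (L : Type) [Field L] [Algebra F L] (c : Fin r → Fin (n + 1) → L) (l : Fin r → ℕ),
            (∀ f ∈ X, aeval (Pool.Agent.H533R3.SL.cur c l) f = 0) → NC c l →
            aeval (fun i => ∑ j, c j i) G = 0) → aeval (pt v u) G = 0) ∨
          ht k (pt v u) ≤ (max A1 A2 : ℕ) *
            (max (canDeg k L + S.card) 0 + vht k v + Module.finrank F L * h) := by
      intro L _ _ _ _ _ S M v u hM0 hM hu hx hon
      have hL : IsFF k L := Pool.Agent.W603.PV.isFF_of_finite (F := F)
      rcases hA1 (k := k) (κ := F) (K := L) X (fun f hf => (hX f hf).1)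
        (h := Module.finrank F L * h) (by positivity) (fun f hf => by
          rw [cht_ext (k := k) (F := F) (L := L) f]
          exact mul_le_mul_of_nonneg_left (hX f hf).2 (by positivity)) v u S hM0 hM hu hx hon
        with h1 | h1
      · exact Or.inl h1
      · right
        refine h1.trans ?_
        have h2 : (0 : ℤ) ≤ max (canDeg k L + S.card) 0 + vht k v + Module.finrank F L * h := by
          have h3 := le_max_right (canDeg k L + (S.card : ℤ)) 0
          have h4 : 0 ≤ vht k v := ht_nonneg (fin_finite _)
          positivity
        have h3 := mul_le_mul_of_nonneg_right hle1 h2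
        linarith
    refine ⟨fun L _ _ _ _ _ S M v u hM0 hM hu hx hon => ?_, fun hp hnu => ?_⟩
    · rcases key L S M v u hM0 hM hu hx hon with h1 | h1
      · exact Or.inl h1.1
      · exact Or.inr h1
    · obtain ⟨G, hG1, hG2, hG3⟩ := exists_hyper X hp hnu d hd (fun f hf => (hX f hf).1) r
      refine ⟨G, hG1, hG2, fun L _ _ _ _ _ S M v u hM0 hM hu hx hon => ?_⟩
      rcases key L S M v u hM0 hM hu hx hon with h1 | h1
      · exact Or.inl (h1.2 G fun L _ _ c l hz hc => hG3 L c l hz hc)
      · exact Or.inr h1
  · intro U hU
    have key : ∀ (L : Type) [Field L] [Algebra k L] [Algebra F L] [IsScalarTower k F L]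
        [FiniteDimensional F L] (S : Finset (Place k L)) (M : ℕ) (v : Fin r → Fin n → L)
        (u : Fin r → L), 0 < M → ((r + d).choose d - 1) ^ 2 ≤ M → Units S M u →
        (∀ f ∈ U, aeval (fun i => ∑ j, v j i * u j) f = 0) →
        (OnGm U v u ∧ ∀ G : MvPolynomial (Fin n) F,
          (∀ (L : Type) [Field L] [Algebra F L] (c : Fin r → Fin n → L) (l : Fin (r + 1) → ℕ),
            (∀ f ∈ U, aeval (Pool.Agent.H533R3.SL.cur (Pool.Agent.Y215.AF.homC c) l)
              (Pool.Agent.W235.RM.hmg d f) = 0) → NC (Pool.Agent.Y215.AF.homC c) l →
            aeval (fun i => ∑ j, c j i) G = 0) → aeval (fun i => ∑ j, v j i * u j) G = 0) ∨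
          aht k (fun i => ∑ j, v j i * u j) ≤ (max A1 A2 : ℕ) * (max (canDeg k L + S.card) 0 +
            aht k (fun p : Fin r × Fin n => v p.1 p.2) + Module.finrank F L * h) := by
      intro L _ _ _ _ _ S M v u hM0 hM hu hon
      have hL : IsFF k L := Pool.Agent.W603.PV.isFF_of_finite (F := F)
      have hM' : modF (r + 1) d ≤ M := by
        unfold modF
        rw [show r + 1 + d - 1 = r + d by omega]
        exact hM
      rcases hA2 (k := k) (κ := F) (K := L) U (fun f hf => (hU f hf).1)
        (h := Module.finrank F L * h) (by positivity) (fun f hf => by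
          rw [cht_ext (k := k) (F := F) (L := L) f]
          exact mul_le_mul_of_nonneg_left (hU f hf).2 (by positivity)) v u S hM0 hM' hu hon
        with h1 | h1
      · exact Or.inl h1
      · right
        refine h1.trans ?_
        have h2 : (0 : ℤ) ≤ max (canDeg k L + S.card) 0 +
            aht k (fun p : Fin r × Fin n => v p.1 p.2) + Module.finrank F L * h := by
          have h3 := le_max_right (canDeg k L + (S.card : ℤ)) 0
          have h4 : 0 ≤ aht k (fun p : Fin r × Fin n => v p.1 p.2) := ht_nonneg (fin_finite _)
          positivity
        have h3 := mul_le_mul_of_nonneg_right hle2 h2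
        linarith
    refine ⟨fun L _ _ _ _ _ S M v u hM0 hM hu hon => ?_, fun hp hnu => ?_⟩
    · rcases key L S M v u hM0 hM hu hon with h1 | h1
      · exact Or.inl h1.1
      · exact Or.inr h1
    · obtain ⟨G, hG1, hG2⟩ := exists_hyperA U hp hnu d hd (fun f hf => (hU f hf).1) r
      refine ⟨G, hG1, fun L _ _ _ _ _ S M v u hM0 hM hu hon => ?_⟩
      rcases key L S M v u hM0 hM hu hon with h1 | h1
      · exact Or.inl (h1.2 G fun L _ _ c l hz hc => hG2 L c l hz hc)
      · exact Or.inr h1

end Pool.Agent.Results.MP_4dacf8_ag.FewTermPoints
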