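import Pool.Agent.Q41.GT.Carry

/-!
# Vojta's height inequality over function fields, for varieties carrying a map with many
preperiodic points

`k` is an algebraically closed field of characteristic zero, `F` the function field of a smooth
projective curve over `k`, `V` an integral projective variety over `F` with function field `K` and
generic point `y`, the homogeneous coordinates, elements of `K` whose ratios generate `K` over `F`
(`coords F y = ⊤`). Neither `V` nor anything else needs to be defined over `k` (the family can be
non-isotrivial). `w` is the transcendence degree of `K` over `k`, the dimension of the total space.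

`Carries k d B p q`: `f = p / q` is a rational map of the projective line over `K`, of degree `d`, i.e.
an algebraic family of rational maps of degree `d` over an open subset of the total space; `f` has
at least `B` preperiodic points with coordinates in `K` (points whose orbit is finite), among them
`∞`, `0` and `1` (every `f` with three preperiodic points in `P^1(K)` is conjugate to such a map), and
the variation is maximal: `K` is algebraic over the field generated over `k` by the coefficients of
`f`. `ratP1 p q d` is the map `f` on `P^1(K) = K ∪ {∞}` (`Option K`).

Theorem: for every `d ≥ 2` there is `B` such that for all such `V`: the total space is of general type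
(`GeneralType k K w`: for some `N > 0` there are `N`-canonical forms of the function field which are
regular at all prime divisors of all models, with `w` algebraically independent ratios), and there
are a proper closed subset `G = 0` of `V` (`G` a form over `F`) and a number `A` such that for all
finite extensions `L` of `F` and all points `u` of `V` over `L` with `G(u) ≠ 0`
`h(u) ≤ A * max (2 g(L) - 2) 0`,
where `h(u)` is the height relative to `L` (`pht k u`) and `2 g(L) - 2` is the canonical degree of
`L` (`canDeg k L`). This is the inequality of the conjecture without the term `O(1)` and without the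
counting function, for any divisor on the total space (after division by `[L : F]`; the height for
`K_X + D` is at most a multiple of `h` plus a constant).
-/

set_option autoImplicit false

namespace Pool.Agent.Results.MP_4dacf8_ag.ManyPreperiodicPoints

open Polynomial FF Pool.Agent.W602.GT Pool.Agent.Q41.GT
open Pool.Agent.W603.LV (canDeg)
open Pool.Agent.W603.PV (pht)

/-- `u` is a point, over the extension `L` of `F`, of the projective variety over `F` with the
generic point `y`. -/
def IsPoint {M : ℕ} {F K : Type} [Field F] [Field K] [Algebra F K] (y : Fin (M + 1) → K)
    {L : Type} [Field L] [Algebra F L] (u : Fin (M + 1) → L) : Prop :=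
  u ≠ 0 ∧ ∀ (H : MvPolynomial (Fin (M + 1)) F) (e : ℕ), H.IsHomogeneous e →
    MvPolynomial.aeval y H = 0 → MvPolynomial.aeval u H = 0

/-- See the explanation at the beginning of the file. -/
theorem result (d : ℕ) (hd : 2 ≤ d) : ∃ B : ℕ, ∀ (k F K : Type) [Field k] [IsAlgClosed k]
    [CharZero k] [Field F] [Algebra k F] [IsFF k F] [Field K] [Algebra k K] [Algebra F K]
    [IsScalarTower k F K] (w : ℕ), 1 ≤ w → Algebra.trdeg k K = w → ∀ p q : K[X],
    Carries k d B p q → ∀ (M : ℕ) (y : Fin (M + 1) → K), y ≠ 0 → coords F y = ⊤ →
    GeneralType k K w ∧
    ∃ (G : MvPolynomial (Fin (M + 1)) F) (E A : ℕ), G.IsHomogeneous E ∧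
      MvPolynomial.aeval y G ≠ 0 ∧
      ∀ (L : Type) [Field L] [Algebra k L] [Algebra F L] [IsScalarTower k F L]
        [Module.Finite F L] (u : Fin (M + 1) → L), IsPoint (F := F) y u →
        MvPolynomial.aeval u G ≠ 0 → pht k u ≤ A * max (canDeg k L) 0 := by
  obtain ⟨B, hB⟩ := Carries.voj d hd
  obtain ⟨B', hB'⟩ := Pool.Agent.Q41.GT.a_prep d hd
  refine ⟨max B B', ?_⟩
  intro k F K _ _ _ _ _ _ _ _ _ _ w hw htr p q h M y hy hcy
  have h' := h.mono (le_max_right B B')
  refine ⟨hB' k K w hw htr p q h'.coprime h'.degree h'.three h'.variation h'.many, ?_⟩
  obtain ⟨G, ⟨E, hG⟩, hyG, A, hA⟩ := hB k F K w hw htr p q (h.mono (le_max_left _ _)) M y hy hcy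
  refine ⟨G, E, A, hG, hyG, ?_⟩
  intro L _ _ _ _ _ u hu huG
  have hL : IsFF k L := Pool.Agent.W603.PV.isFF_of_finite (k := k) (F := F)
  exact hA L u hu.1 (fun H hH hy0 => by
    obtain ⟨e, he⟩ := hH
    exact hu.2 H e he hy0) huG

end Pool.Agent.Results.MP_4dacf8_ag.ManyPreperiodicPoints
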