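import Pool.Agent.Q72.NA.Lin
import Pool.Agent.Q72.NA.Alg

/-!
# Vojta's height inequality over function fields, for families of pairs over tori

`F` is the function field of a smooth projective complex curve `B`, `X` is an integral projective
variety over `F` in projective `N`-space with the function field `K` and the generic point `a` (the
homogeneous coordinates are elements of `K`, and their ratios generate `K` over `F`), and
`f 0, …, f n` are forms over `F` of the same degree which do not vanish on `X` such that the rational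
map `(f 0 : … : f n)` from `X` to projective `n`-space is generically finite onto its image: `K` is
algebraic over the field generated over `F` by the ratios `f i / f 0`. The image is any subvariety of
projective space, and neither `X` nor the forms need to be defined over `ℂ` (the pairs can vary in
moduli). `D` is the divisor where the ratios are not units, `f 0 * ... * f n = 0` if the forms have
no common zero on `X`.

`S₀` is a finite set of points of `B`. The assumption is that the total space of the family of the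
`X - D` over `B - S₀` is of log general type, as a complex variety: it has the function field `K`,
and its boundary consists of the prime divisors (on all models) at which a ratio `f i / f 0` is not a
unit, and of those over `S₀`. `LogGeneralType ℂ K d Bd` says that `d` is the dimension, and that for
some `m > 0` there are `d + 1` forms in the `m`-th power of the canonical bundle, regular at all
prime divisors outside `Bd` and with at most logarithmic poles at the divisors in `Bd`, whose ratios
generate a field of transcendence degree `d`. (For a pair of log general type over `F` this is so if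
`S₀` is large enough, by the additivity of the logarithmic Kodaira dimension; if everything is
defined over `ℂ` then it holds if `X - D` is of log general type and `2 g(B) - 2 + |S₀| > 0`.)

Theorem: there are a proper closed subset `G = 0` of `X` and constants `A`, `C` such that for all
finite extensions `L` of `F` and all points `u` of `X` over `L` outside `G = 0`,
`h(u) ≤ A * (2 g(L) - 2 + N) + C * [L : F]`,
where `h(u)` is the height (relative to `L`), `2 g(L) - 2` is the canonical degree of `L`, and `N`
is the number of places of `L` at which `u` meets `D` (at which the orders of the `f i (u)` are not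
all equal), each counted once: `T` can be any finite set of places which contains them.
-/

set_option autoImplicit false

namespace Pool.Agent.Results.MP_4dacf8_ag.TorusCoverPairs

open MvPolynomial FF Pool.Agent.W603.LV Pool.Agent.W603.PV Pool.Agent.W602.GT Pool.Agent.Q72.NA

/-- `u` is a point, over the extension `L` of `F`, of the projective variety over `F` with the
generic point `a`. -/
def IsPoint {N : ℕ} {F K : Type} [Field F] [Field K] [Algebra F K] (a : Fin (N + 1) → K)
    {L : Type} [Field L] [Algebra F L] (u : Fin (N + 1) → L) : Prop :=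
  ∀ (H : MvPolynomial (Fin (N + 1)) F) (D : ℕ), H.IsHomogeneous D → aeval a H = 0 → aeval u H = 0

/-- The prime divisor `P`, of the total space with the function field `K`, is over the point `v` of
the base with the function field `F`. -/
def IsOver {F K : Type} [Field F] [Algebra ℂ F] [Field K] [Algebra ℂ K] [Algebra F K]
    (P : Place ℂ K) (v : Place ℂ F) : Prop :=
  ∀ c : F, 0 < v.ord c → 0 < P.ord (algebraMap F K c)

/-- See the explanation at the beginning of the file. -/
theorem result {N n d : ℕ} (F : Type) [Field F] [Algebra ℂ F] [IsFF ℂ F] (S₀ : Finset (Place ℂ F))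
    (K : Type) [Field K] [Algebra ℂ K] [Algebra F K] [IsScalarTower ℂ F K] (a : Fin (N + 1) → K)
    (ha : ∃ j, a j ≠ 0)
    (hK : IntermediateField.adjoin F {g : K | ∃ i j, a j ≠ 0 ∧ g = a i / a j} = ⊤)
    (f : Fin (n + 1) → MvPolynomial (Fin (N + 1)) F) (e : ℕ) (hf : ∀ i, (f i).IsHomogeneous e)
    (hf0 : ∀ i, aeval a (f i) ≠ 0)
    (halg : Algebra.IsAlgebraic
      (IntermediateField.adjoin F (Set.range fun i => aeval a (f i) / aeval a (f 0))) K)
    (hlgt : LogGeneralType ℂ K d fun P =>
      (∃ i, P.ord (aeval a (f i)) ≠ P.ord (aeval a (f 0))) ∨ ∃ v ∈ S₀, IsOver P v) :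
    ∃ (G : MvPolynomial (Fin (N + 1)) F) (E A C : ℕ), G.IsHomogeneous E ∧ aeval a G ≠ 0 ∧
      ∀ (L : Type) [Field L] [Algebra ℂ L] [Algebra F L] [IsScalarTower ℂ F L] [Module.Finite F L]
        (u : Fin (N + 1) → L), IsPoint (F := F) a u → aeval u G ≠ 0 →
        ∀ T : Finset (Place ℂ L),
          (∀ P : Place ℂ L, P ∉ T → ∀ i, P.ord (aeval u (f i)) = P.ord (aeval u (f 0))) →
          pht ℂ u ≤ A * (canDeg ℂ L + T.card) + C * Module.finrank F L := by
  classical
  -- functions on the base
  obtain ⟨t, ht⟩ := IsFF.exists_transcendental (k := ℂ) (K := F)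
  have huf : ∀ v : Place ℂ F, ∃ c : F, v.ord c = 1 := fun v => ⟨unif v, ord_unif v⟩
  choose uf huf using huf
  let T0 : Finset F := insert t (S₀.image uf)
  have hT0 : ∀ c ∈ T0, c ≠ 0 := by
    intro c hc
    rcases Finset.mem_insert.1 hc with rfl | hc
    · rintro rfl
      exact ht isAlgebraic_zero
    · obtain ⟨v, -, rfl⟩ := Finset.mem_image.1 hc
      intro h0
      have := huf v
      rw [h0, v.ord_zero] at this
      exact zero_ne_one this
  have hT0t : t ∈ T0 := Finset.mem_insert_self _ _
  have hT0v : ∀ v ∈ S₀, uf v ∈ T0 := fun v hv =>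
    Finset.mem_insert_of_mem (Finset.mem_image_of_mem _ hv)
  -- the units
  let ι : Type := Fin (n + 1) ⊕ T0
  obtain ⟨eqv⟩ : Nonempty (Fin (Fintype.card ι) ≃ ι) := ⟨(Fintype.equivFin ι).symm⟩
  let x : ι → Kˣ := Sum.elim
    (fun i => Units.mk0 (aeval a (f i) / aeval a (f 0)) (div_ne_zero (hf0 i) (hf0 0)))
    (fun c => Units.mk0 (algebraMap F K c) ((map_ne_zero _).2 (hT0 c c.2)))
  have hxl : ∀ i, (x (Sum.inl i) : K) = aeval a (f i) / aeval a (f 0) := fun i => rfl
  have hxr : ∀ c : T0, (x (Sum.inr c) : K) = algebraMap F K c := fun i => rfl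
  let Pn : ι → MvPolynomial (Fin (N + 1)) F := Sum.elim f fun c => C (c : F)
  let Qn : ι → MvPolynomial (Fin (N + 1)) F := Sum.elim (fun _ => f 0) fun _ => 1
  let dg : ι → ℕ := Sum.elim (fun _ => e) fun _ => 0
  have hPn : ∀ i, (Pn i).IsHomogeneous (dg i) := by
    rintro (i | c)
    · exact hf i
    · exact isHomogeneous_C _ _
  have hQn : ∀ i, (Qn i).IsHomogeneous (dg i) := by
    rintro (i | c)
    · exact hf 0
    · exact isHomogeneous_one _ _
  have hQn0 : ∀ i, aeval a (Qn i) ≠ 0 := by
    rintro (i | c)
    · exact hf0 0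
    · show aeval a (1 : MvPolynomial (Fin (N + 1)) F) ≠ 0
      rw [map_one]
      exact one_ne_zero
  have hxPQ : ∀ i, (x i : K) * aeval a (Qn i) = aeval a (Pn i) := by
    rintro (i | c)
    · rw [hxl]
      exact div_mul_cancel₀ _ (hf0 0)
    · rw [hxr]
      show algebraMap F K c * aeval a (1 : MvPolynomial (Fin (N + 1)) F) = aeval a (C (c : F))
      rw [map_one, mul_one, aeval_C]
  have halg' : ∀ z : K, IsAlgebraic (IntermediateField.adjoin ℂ
      (Set.range fun i => (x (eqv i) : K))) z := by
    have hmem : ∀ i : ι, (x i : K) ∈ IntermediateField.adjoin ℂ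
        (Set.range fun i => (x (eqv i) : K)) := fun i =>
      IntermediateField.subset_adjoin _ _ ⟨eqv.symm i, by
        show (x (eqv (eqv.symm i)) : K) = x i
        rw [Equiv.apply_symm_apply]⟩
    exact alg_fam (fun i => aeval a (f i) / aeval a (f 0)) (fun z => halg.isAlgebraic z) _
      (fun i => hmem (Sum.inl i)) t ht (hmem (Sum.inr ⟨t, hT0t⟩))
  have hlgt' : LogGeneralType ℂ K d (fun P => ∃ i, P.ord (x (eqv i) : K) ≠ 0) := by
    refine lgt_mono ?_ hlgt
    rintro P (⟨i, hi⟩ | ⟨v, hv, hP⟩)
    · refine ⟨eqv.symm (Sum.inl i), ?_⟩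
      rw [Equiv.apply_symm_apply, hxl, P.ord_div (hf0 i) (hf0 0), sub_ne_zero]
      exact hi
    · refine ⟨eqv.symm (Sum.inr ⟨uf v, hT0v v hv⟩), ?_⟩
      rw [Equiv.apply_symm_apply, hxr]
      refine (hP (uf v) ?_).ne'
      rw [huf]
      exact one_pos
  have hess : Algebra.EssFiniteType ℂ K := by
    have h1 : Algebra.EssFiniteType F K := ess_of_adjoin hK
    have h2 : Algebra.EssFiniteType ℂ F := IsFF.ess
    exact Algebra.EssFiniteType.comp ℂ F K
  obtain ⟨G, E, A, hG, hGa, hmain⟩ := coreF (n := Fintype.card ι) F K a ha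
    (fun g => ratF_of_adjoin hK g) (fun i => x (eqv i)) (fun i => Pn (eqv i)) (fun i => Qn (eqv i))
    (fun i => dg (eqv i)) (fun i => hPn _) (fun i => hQn _) (fun i => hQn0 _) (fun i => hxPQ _)
    halg' hlgt'
  have hA0 : (0 : ℤ) ≤ A := Int.natCast_nonneg _
  obtain ⟨H0, hH0⟩ : ∃ H0 : ℕ, (H0 : ℤ) = ∑ c ∈ T0, 2 * hgt ℂ c := by
    have h1 : (0 : ℤ) ≤ ∑ c ∈ T0, 2 * hgt ℂ c :=
      Finset.sum_nonneg fun c _ => mul_nonneg zero_le_two (hgt_nonneg _)
    exact ⟨(∑ c ∈ T0, 2 * hgt ℂ c).toNat, Int.toNat_of_nonneg h1⟩
  refine ⟨G, E, 3 * A, A * (3 * H0 + 6), hG, hGa, ?_⟩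
  intro L _ _ _ _ _ u hu hGu T hT
  have hL : IsFF ℂ L := isFF_of_finite (k := ℂ) (F := F)
  obtain ⟨hne, hbound⟩ := hmain L u hu hGu
  let T1 : Finset (Place ℂ L) :=
    T0.biUnion fun c => (finite_support (k := ℂ) (algebraMap F L c)).toFinset
  have hT1 : ∀ c ∈ T0, ∀ z : Place ℂ L, z ∉ T1 → z.ord (algebraMap F L c) = 0 := by
    intro c hc z hz
    by_contra hcon
    exact hz (Finset.mem_biUnion.2 ⟨c, hc, by simpa using hcon⟩)
  have hT1c : (T1.card : ℤ) ≤ H0 * Module.finrank F L := by
    have h1 : (T1.card : ℤ) ≤
        ∑ c ∈ T0, ((finite_support (k := ℂ) (algebraMap F L c)).toFinset.card : ℤ) := by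
      exact_mod_cast Finset.card_biUnion_le
    refine h1.trans ?_
    rw [hH0, Finset.sum_mul]
    refine Finset.sum_le_sum fun c _ => ?_
    refine (card_supp (algebraMap F L c) _ fun z hz => by simpa using hz).trans (le_of_eq ?_)
    rw [hgt_algebraMap c]
    ring
  have h1 := hbound (T ∪ T1) (fun z hz i => by
    rw [Finset.notMem_union] at hz
    obtain ⟨j, hj⟩ : ∃ j, eqv i = j := ⟨_, rfl⟩
    simp only [hj]
    rcases j with j | c
    · exact hT z hz.1 j
    · show z.ord (aeval u (C (c : F))) = z.ord (aeval u (1 : MvPolynomial (Fin (N + 1)) F))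
      rw [aeval_C, map_one, z.ord_one]
      exact hT1 c c.2 z hz.2)
  refine h1.trans ?_
  have hcan : -2 ≤ canDeg ℂ L := by
    by_cases hc : canDeg ℂ L < 0
    · rw [canDeg_of_neg hc]
    · omega
  have hfr : (1 : ℤ) ≤ Module.finrank F L := by
    exact_mod_cast (Module.finrank_pos : 0 < Module.finrank F L)
  have hc1 : ((T ∪ T1).card : ℤ) ≤ T.card + T1.card := by
    exact_mod_cast Finset.card_union_le T T1
  have h2 : max (2 * canDeg ℂ L + 3 * ((T ∪ T1).card : ℤ)) 0 ≤
      3 * (canDeg ℂ L + T.card) + (3 * H0 + 6) * Module.finrank F L := by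
    have h3 : (0 : ℤ) ≤ H0 * Module.finrank F L :=
      mul_nonneg (Int.natCast_nonneg _) (Int.natCast_nonneg _)
    have h4 : (0 : ℤ) ≤ T.card := Int.natCast_nonneg _
    refine max_le ?_ ?_ <;> nlinarith
  calc (A : ℤ) * max (2 * canDeg ℂ L + 3 * ((T ∪ T1).card : ℤ)) 0
      ≤ A * (3 * (canDeg ℂ L + T.card) + (3 * H0 + 6) * Module.finrank F L) :=
        mul_le_mul_of_nonneg_left h2 hA0
    _ = ((3 * A : ℕ) : ℤ) * (canDeg ℂ L + T.card) +
        ((A * (3 * H0 + 6) : ℕ) : ℤ) * Module.finrank F L := by
        push_cast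
        ring

end Pool.Agent.Results.MP_4dacf8_ag.TorusCoverPairs
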